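import Mathlib

namespace Pool.Agent.Results.MP_b2f6ce_nt.Counter

def Sol (n : ℕ) : Set (ℕ × ℕ × ℕ) :=
  {t | 1 ≤ t.1 ∧ 1 ≤ t.2.1 ∧ n = 2 * t.2.2 * t.2.1 * t.1 + t.1 * t.2.1 + t.2.1 + t.2.2}

noncomputable def all (f : ℕ → Bool) (hi d : ℕ) : ℕ → Bool :=
  Nat.rec (fun lo => f lo) (fun d r lo => (Nat.blt hi lo).rec
    ((r lo).rec false (r (Nat.add lo (Nat.pow 2 d)))) true) d

theorem all_spec {f : ℕ → Bool} {hi : ℕ} (d : ℕ) : ∀ lo, all f hi d lo = true →
    ∀ i, lo ≤ i → i < lo + 2 ^ d → i ≤ hi → f i = true := by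
  induction d with
  | zero => intro lo h i a b _; obtain rfl : i = lo := by omega
            exact h
  | succ d ih =>
    intro lo h i a b c
    change (Nat.blt hi lo).rec ((all f hi d lo).rec false (all f hi d (lo + 2 ^ d))) true = true at h
    rw [show Nat.blt hi lo = false from Bool.eq_false_iff.2 fun k => by
      rw [Nat.blt_eq] at k; omega] at h
    rcases e : all f hi d lo with _ | _
    · rw [e] at h; exact absurd h Bool.false_ne_true
    · rw [e] at h
      by_cases k : i < lo + 2 ^ d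
      · exact ih lo e i a k c
      · exact ih _ h i (by omega) (by omega) c

def S : List (ℕ × ℕ × ℕ) := [(99576, 1, 0), (1229, 27, 1), (307, 108, 1), (1, 24894, 1), (655, 8, 9), (4, 314, 39), (17, 30, 97), (9, 6, 913)]

def g (p q : ℕ) : Bool :=
  (Nat.beq (Nat.mod (Nat.sub (Nat.sub 99577 p) q) (Nat.mul (Nat.succ (Nat.mul 2 p)) q)) 0).rec true
    (S.any fun t => Nat.beq t.2.1 q && Nat.beq t.2.2 p)

theorem chk : all (fun p => all (g p) (Nat.div (Nat.sub 99577 p) (Nat.mul 2 (Nat.succ p))) 16 1)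
    33192 16 0 = true := by decide +kernel

theorem result : ∃ n : ℕ, 1 ≤ n ∧ (Sol n).Finite ∧
    ((Sol n).ncard + 1 : ℤ) ≤ ⌊Real.log n⌋ - 2 := by
  have h : Sol 99577 ⊆ (S.toFinset : Set _) := by
    rintro ⟨a, q, p⟩ ⟨h1, h2, h3⟩
    simp only at h1 h2 h3
    have e : 99577 - p - q = (2 * p + 1) * q * a := by
      rw [Nat.sub_sub]; exact Nat.sub_eq_of_eq_add (h3.trans (by ring))
    have hp : p + q ≤ 99577 := by omega
    clear h3
    have k0 : (2 * p + 1) * q ≤ (2 * p + 1) * q * a := Nat.le_mul_of_pos_right _ h1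
    have k1 : q * (2 * (p + 1)) ≤ 99577 - p := by
      have : q * (2 * (p + 1)) = (2 * p + 1) * q + q := by ring
      omega
    have k4 : p ≤ 33192 := by
      have : 2 * (p + 1) ≤ q * (2 * (p + 1)) := Nat.le_mul_of_pos_left _ h2
      omega
    have k2 : 2 * (p + 1) ≤ q * (2 * (p + 1)) := Nat.le_mul_of_pos_left _ h2
    have k3 : q * 2 ≤ q * (2 * (p + 1)) := Nat.mul_le_mul_left _ (by omega)
    have := all_spec 16 1 (all_spec 16 0 chk p (Nat.zero_le _) (by omega) k4) q h2 (by omega)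
      ((Nat.le_div_iff_mul_le (show 0 < 2 * (p + 1) by omega)).2 k1)
    have z : Nat.beq (Nat.mod (Nat.sub (Nat.sub 99577 p) q)
        (Nat.mul (Nat.succ (Nat.mul 2 p)) q)) 0 = true := by
      rw [Nat.beq_eq]
      change (99577 - p - q) % ((2 * p + 1) * q) = 0
      rw [e, Nat.mul_mod_right]
    rw [g, z] at this
    simp only [S, List.any_cons, List.any_nil, Bool.or_false, Bool.or_eq_true, Bool.and_eq_true,
      Nat.beq_eq] at this
    simp only [S, List.coe_toFinset, Set.mem_setOf_eq, List.mem_cons, Prod.mk.injEq]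
    rcases this with ⟨rfl, rfl⟩ | ⟨rfl, rfl⟩ | ⟨rfl, rfl⟩ | ⟨rfl, rfl⟩ | ⟨rfl, rfl⟩ | ⟨rfl, rfl⟩ |
      ⟨rfl, rfl⟩ | ⟨rfl, rfl⟩ <;> omega
  have h1 := Set.ncard_le_ncard h (Finset.finite_toSet _)
  rw [Set.ncard_coe_finset, show S.toFinset.card = 8 by decide +kernel] at h1
  have h2 : 11 ≤ ⌊Real.log (99577 : ℕ)⌋ := by
    rw [Int.le_floor, Real.le_log_iff_exp_le (by norm_num)]
    have : Real.exp ((11 : ℤ) : ℝ) = Real.exp 1 ^ 11 := by rw [← Real.exp_nat_mul]; norm_num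
    rw [this]
    exact (pow_le_pow_left₀ (Real.exp_pos 1).le Real.exp_one_lt_d9.le 11).trans (by norm_num)
  exact ⟨99577, by norm_num, (Finset.finite_toSet _).subset h, by omega⟩

end Pool.Agent.Results.MP_b2f6ce_nt.Counter
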